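import Pool.Agent.Lib.MP_777c16_ag.Defs
import Pool.Agent.Lib.MP_777c16_ag.PartB
import Pool.Agent.Lib.MP_777c16_ag.Dim
import Mathlib.CategoryTheory.ObjectProperty.Shift
import Mathlib.CategoryTheory.ObjectProperty.FullSubcategory

/-!
# Derived invariance of dimension

The category `Perf X` of perfect complexes on a scheme `X` is the full subcategory of the derived
category `DerivedCategory X.Modules` of sheaves of modules on `X` whose objects are locally
isomorphic, in the derived category, to bounded complexes of finite locally free modules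
(`Pool.Agent.Lib.MP_777c16_ag.IsPerfect`). It is stable under the shift functors.

If `X` and `Y` are schemes of finite type over fields and `Perf X` is equivalent to `Perf Y` by an
equivalence which commutes with the shift by one on objects, up to isomorphism (this is the case
for every exact equivalence of triangulated categories), then `X` and `Y` have the same dimension.
-/

open CategoryTheory AlgebraicGeometry Limits

universe u

namespace Pool.Agent.Results.MP_777c16_ag.DerivedDim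

open Pool.Agent.Lib.MP_777c16_ag

/-- Perfect complexes are stable under shifts. -/
instance (X : Scheme.{u}) : (IsPerfect (X := X)).IsStableUnderShift ℤ where
  isStableUnderShiftBy a := ⟨fun _ h => isPerfect_shift h a⟩

/-- The category of perfect complexes on a scheme, a full subcategory of the derived category
of the category of sheaves of modules. The shift functors `K ↦ K⟦n⟧` on it are those of the
derived category. -/
abbrev Perf (X : Scheme.{u}) : Type (u + 1) := (IsPerfect (X := X)).FullSubcategory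

section

variable {X Y : Scheme.{u}} (Φ : Perf X ≌ Perf Y)

/-- shift on objects of `Perf` -/
noncomputable def shiftIso (K : Perf X) (n : ℤ) : (K⟦n⟧ : Perf X).obj ≅ K.obj⟦n⟧ :=
  ((IsPerfect (X := X)).ι.commShiftIso n).app K

lemma hom_ext_zero {K L : Perf X} (f : K ⟶ L) : f = 0 ↔ f.hom = 0 := by
  constructor
  · rintro rfl
    rfl
  · intro h
    ext1
    exact h

/-- compatibility with all nonnegative shifts -/
lemma shift_nat
    (hΦ : ∀ K : Perf X, Nonempty (Φ.functor.obj (K⟦(1 : ℤ)⟧) ≅ (Φ.functor.obj K)⟦(1 : ℤ)⟧))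
    (K : Perf X) (n : ℕ) :
    Nonempty (Φ.functor.obj (K⟦(n : ℤ)⟧) ≅ (Φ.functor.obj K)⟦(n : ℤ)⟧) := by
  induction n with
  | zero =>
    exact ⟨Φ.functor.mapIso ((shiftFunctorZero (Perf X) ℤ).app K) ≪≫
      ((shiftFunctorZero (Perf Y) ℤ).app _).symm⟩
  | succ n ih =>
    obtain ⟨e⟩ := ih
    obtain ⟨e'⟩ := hΦ (K⟦(n : ℤ)⟧)
    have h1 : ((n : ℤ) + 1) = ((n + 1 : ℕ) : ℤ) := by push_cast; rfl
    exact ⟨Φ.functor.mapIso ((shiftFunctorAdd' (Perf X) (n : ℤ) 1 _ h1).app K) ≪≫ e' ≪≫
      (shiftFunctor (Perf Y) (1 : ℤ)).mapIso e ≪≫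
      ((shiftFunctorAdd' (Perf Y) (n : ℤ) 1 _ h1).app _).symm⟩

/-- the inverse equivalence also commutes with the shift by one on objects -/
lemma shift_symm
    (hΦ : ∀ K : Perf X, Nonempty (Φ.functor.obj (K⟦(1 : ℤ)⟧) ≅ (Φ.functor.obj K)⟦(1 : ℤ)⟧))
    (L : Perf Y) : Nonempty (Φ.symm.functor.obj (L⟦(1 : ℤ)⟧) ≅ (Φ.symm.functor.obj L)⟦(1 : ℤ)⟧) := by
  obtain ⟨e⟩ := hΦ (Φ.inverse.obj L)
  let e1 : Φ.functor.obj ((Φ.inverse.obj L)⟦(1 : ℤ)⟧) ≅ L⟦(1 : ℤ)⟧ :=
    e ≪≫ (shiftFunctor (Perf Y) (1 : ℤ)).mapIso (Φ.counitIso.app L)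
  exact ⟨Φ.inverse.mapIso e1.symm ≪≫ (Φ.unitIso.app _).symm⟩

/-- transport of the property `Star` -/
lemma star_transport
    (hΦ : ∀ K : Perf X, Nonempty (Φ.functor.obj (K⟦(1 : ℤ)⟧) ≅ (Φ.functor.obj K)⟦(1 : ℤ)⟧))
    (d : ℤ) (hd : 0 ≤ d) (K : Perf X) (hK : Star d K.obj) : Star d (Φ.functor.obj K).obj := by
  intro P' hP' hvan φ
  let P : Perf Y := ⟨P', hP'⟩
  let e : Φ.functor.obj (Φ.inverse.obj P) ≅ P := Φ.counitIso.app P
  -- the vanishing transported to `X`
  have h1 : ∀ i : ℤ, d ≤ i → ∀ ψ : (Φ.inverse.obj P).obj ⟶ K.obj⟦i⟧, ψ = 0 := by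
    intro i hi ψ
    obtain ⟨n, rfl⟩ := Int.eq_ofNat_of_zero_le (hd.trans hi)
    obtain ⟨e'⟩ := shift_nat Φ hΦ K n
    let ψ' : Φ.inverse.obj P ⟶ K⟦(n : ℤ)⟧ := ObjectProperty.homMk (ψ ≫ (shiftIso K n).inv)
    have h2 : (e.inv ≫ Φ.functor.map ψ' ≫ e'.hom).hom ≫ (shiftIso (Φ.functor.obj K) n).hom = 0 :=
      hvan _ hi _
    have h3 : e.inv ≫ Φ.functor.map ψ' ≫ e'.hom = 0 := by
      rw [hom_ext_zero]
      rw [← cancel_mono (shiftIso (Φ.functor.obj K) n).hom, h2, zero_comp]
    have h4 : Φ.functor.map ψ' = 0 := by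
      rw [← cancel_epi e.inv, ← cancel_mono e'.hom, Category.assoc, h3]
      simp
    have h5 : ψ' = 0 := Φ.functor.map_injective (by rw [h4, Functor.map_zero])
    have h6 : ψ ≫ (shiftIso K n).inv = 0 := (hom_ext_zero ψ').1 h5
    rw [← cancel_mono (shiftIso K n).inv, h6, zero_comp]
  -- the vanishing on `X`
  let φ' : Φ.functor.obj K ⟶ Φ.functor.obj (Φ.inverse.obj P) :=
    (ObjectProperty.homMk φ : Φ.functor.obj K ⟶ P) ≫ e.inv
  obtain ⟨ψ, hψ⟩ := Φ.functor.map_surjective φ'
  have h2 : ψ = 0 := (hom_ext_zero ψ).2 (hK _ (Φ.inverse.obj P).property h1 ψ.hom)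
  have h3 : (ObjectProperty.homMk φ : Φ.functor.obj K ⟶ P) = 0 := by
    rw [← cancel_mono e.inv]
    have : φ' = 0 := by rw [← hψ, h2, Functor.map_zero]
    rw [zero_comp]
    exact this
  exact (hom_ext_zero _).1 h3

/-- one inequality -/
lemma dim_le (k l : Type u) [Field k] [Field l]
    (s : X ⟶ Spec (.of k)) [LocallyOfFiniteType s]
    (t : Y ⟶ Spec (.of l)) [LocallyOfFiniteType t] [QuasiCompact t]
    (hΦ : ∀ K : Perf X, Nonempty (Φ.functor.obj (K⟦(1 : ℤ)⟧) ≅ (Φ.functor.obj K)⟦(1 : ℤ)⟧)) :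
    topologicalKrullDim X ≤ topologicalKrullDim Y := by
  refine iSup_le fun p => ?_
  obtain ⟨d, K, hd, hK, hK0, hstar⟩ := exists_star k s p
  let K' : Perf X := ⟨K, hK⟩
  have hd0 : 0 ≤ d := le_trans (Int.natCast_nonneg _) hd
  have h1 : ¬ IsZero (Φ.functor.obj K').obj := by
    intro h
    have h2 : IsZero (Φ.functor.obj K') := by
      rw [IsZero.iff_id_eq_zero, hom_ext_zero]
      exact h.eq_of_src _ _
    have h3 : IsZero K' := by
      rw [IsZero.iff_id_eq_zero]
      apply Φ.functor.map_injective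
      exact h2.eq_of_src _ _
    have h4 : IsZero K := by
      rw [IsZero.iff_id_eq_zero]
      exact (hom_ext_zero _).1 ((IsZero.iff_id_eq_zero K').1 h3)
    exact hK0 h4
  have h2 := star_transport Φ hΦ d hd0 K' hstar
  exact star_bound l t (Φ.functor.obj K').property h1 d h2 p.length hd

end

/-- **Derived invariance of dimension.** Let `X` and `Y` be schemes of finite type over fields
(for instance separated schemes of finite type over the same field). If there is an equivalence
`Φ` between the categories of perfect complexes on `X` and `Y` such that `Φ (K⟦1⟧)` is isomorphic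
to `(Φ K)⟦1⟧` for every perfect complex `K` (for instance any exact equivalence of triangulated
categories), then `X` and `Y` have the same dimension. -/
theorem result
    (k l : Type u) [Field k] [Field l] (X Y : Scheme.{u})
    (s : X ⟶ Spec (.of k)) [LocallyOfFiniteType s] [QuasiCompact s]
    (t : Y ⟶ Spec (.of l)) [LocallyOfFiniteType t] [QuasiCompact t]
    (Φ : Perf X ≌ Perf Y)
    (hΦ : ∀ K : Perf X, Nonempty (Φ.functor.obj (K⟦(1 : ℤ)⟧) ≅ (Φ.functor.obj K)⟦(1 : ℤ)⟧)) :
    topologicalKrullDim X = topologicalKrullDim Y :=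
  le_antisymm (dim_le Φ k l s t hΦ) (dim_le Φ.symm l k t s (shift_symm Φ hΦ))

end Pool.Agent.Results.MP_777c16_ag.DerivedDim
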